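import Pool.Agent.Lib.MP_0e3b4a_gt.Iface

/-! # CHOW: every point is the endpoint of a control -/

set_option autoImplicit false

namespace Pool.Agent.CutLoci.H38

open MeasureTheory Set Filter Topology

variable {g : Type} [NormedAddCommGroup g] [NormedSpace ℝ g] {r : ℕ} [FiniteDimensional ℝ g]

theorem chow (hConc : ConcStatement g r) (hDila : DilaStatement g r) (hSpan : SpanStatement g r)
    (hStrd : StrdStatement g r) (hKap : KappaStatement g r) (hS : StrucStatement g r) :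
    ChowStatement g r := by
  intro C b
  have hui : ∀ w : Ctl r, IntegrableOn w (Ioc 0 1) := fun w =>
    (Lp.memLp w).integrable (by norm_num)
  have h11 : (1 : ℝ) ∈ Icc (0 : ℝ) 1 := ⟨zero_le_one, le_rfl⟩
  obtain ⟨u0, hu0⟩ := hSpan C
  obtain ⟨-, hder⟩ := hStrd C
  obtain ⟨L, hL, hLx⟩ := hder u0
  have hsurj : LinearMap.range (L : Ctl r →ₗ[ℝ] g) = ⊤ := by
    rw [LinearMap.range_eq_top]
    intro e
    obtain ⟨w, hw⟩ := (hKap C (C.End u0)).2 e
    obtain ⟨x, hx⟩ := hu0 w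
    refine ⟨x, ?_⟩
    change L x = e
    rw [hLx, hx, hw]
  have hopen : Filter.map (fun v : Ctl r => C.End v) (𝓝 u0) = 𝓝 (C.End u0) :=
    hL.map_nhds_eq_of_surj hsurj
  obtain ⟨hconc, hrev⟩ := hConc C
  obtain ⟨w, hw⟩ := hrev u0
  obtain ⟨B, hB1, hB2⟩ := (hS C w (hui w)).2.2 1 h11 |>.2.2.2.2.2
  -- the endpoint of a concatenation
  have hcat : ∀ u : Ctl r, ∃ v : Ctl r, C.End v = C.Ad w 1 (C.End u) + C.End w := by
    intro u
    obtain ⟨v, hv⟩ := hconc w u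
    refine ⟨v, ?_⟩
    have h1 := (hv 1 h11).2
    norm_num at h1
    have h2 := (hS C w (hui w)).2.2 1 h11 |>.1
    have h3 := (hS C u (hui u)).2.2 1 h11 |>.1
    unfold Carnot.End Carnot.org
    rw [h1]
    change (C.Gam w 1 (C.Gam u 1 (0, 1))).1 = _
    rw [h3 0 1, map_zero, zero_add, one_smul, h2, one_smul]
    rfl
  -- the origin
  have hzero : C.Ad w 1 (C.End u0) + C.End w = 0 := by
    have h2 := (hS C w (hui w)).2.2 1 h11 |>.1
    have h3 := (hS C u0 (hui u0)).2.2 1 h11 |>.1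
    have h4 := congrArg (fun T : Carnot.Aff g => (T (0, 1)).1) hw
    change (C.Gam w 1 (C.Gam u0 1 (0, 1))).1 = 0 at h4
    rw [h3 0 1, map_zero, zero_add, one_smul, h2, one_smul] at h4
    exact h4
  -- a neighbourhood of zero consists of endpoints
  have hnhd : {z : g | ∃ u : Ctl r, C.End u = z} ∈ 𝓝 (0 : g) := by
    have h1 : {z : g | ∃ u : Ctl r, C.End u = z} ∈ 𝓝 (C.End u0) := by
      rw [← hopen]
      exact Filter.mem_map.mpr (Filter.univ_mem' fun v => ⟨v, rfl⟩)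
    have h2 : ContinuousAt (fun z : g => B (z - C.End w)) 0 := by fun_prop
    have h3 : B (0 - C.End w) = C.End u0 := by
      have h5 : (0 : g) - C.End w = C.Ad w 1 (C.End u0) := by
        rw [← hzero]; abel
      rw [h5]
      exact congrArg (fun T : g →L[ℝ] g => T (C.End u0)) hB1
    unfold ContinuousAt at h2
    beta_reduce at h2
    rw [h3] at h2
    filter_upwards [h2 h1] with z hz
    obtain ⟨u, hu⟩ := hz
    obtain ⟨v, hv⟩ := hcat u
    refine ⟨v, ?_⟩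
    rw [hv, hu]
    have h6 : C.Ad w 1 (B (z - C.End w)) = z - C.End w :=
      congrArg (fun T : g →L[ℝ] g => T (z - C.End w)) hB2
    rw [h6]; abel
  obtain ⟨δ, hδ0, hδi, hδE⟩ := hDila C
  have h7 := (hδ0 b) hnhd
  have h8 : ∃ ρ : ℝ, ρ ≠ 0 ∧ δ ρ b ∈ {z : g | ∃ u : Ctl r, C.End u = z} := by
    have h9 : ∀ᶠ ρ in 𝓝[≠] (0 : ℝ), δ ρ b ∈ {z : g | ∃ u : Ctl r, C.End u = z} :=
      mem_nhdsWithin_of_mem_nhds h7
    obtain ⟨ρ, hρ⟩ := (h9.and self_mem_nhdsWithin).exists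
    exact ⟨ρ, hρ.2, hρ.1⟩
  obtain ⟨ρ, hρ, u, hu⟩ := h8
  exact ⟨(ρ⁻¹ • u : Ctl r), by rw [hδE, hu, hδi ρ hρ]⟩

end Pool.Agent.CutLoci.H38
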