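import Pool.Agent.Lib.MP_0e3b4a_gt.Iface

/-! # DILA: dilations of a Carnot algebra and the endpoint map -/

set_option autoImplicit false

namespace Pool.Agent.CutLoci.H38

open MeasureTheory Set Filter Topology Polynomial

variable {g : Type} [NormedAddCommGroup g] [NormedSpace ℝ g] {r : ℕ}

theorem aeval_eigen (T : g →L[ℝ] g) (x : g) (μ : ℝ) (hx : T x = μ • x) (p : ℝ[X]) :
    (aeval T p : g →L[ℝ] g) x = p.eval μ • x := by
  induction p using Polynomial.induction_on' with
  | add p q hp hq => rw [map_add, eval_add, add_smul, ← hp, ← hq]; rfl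
  | monomial n a =>
    rw [aeval_monomial, eval_monomial, mul_smul]
    have h : ∀ m : ℕ, (T ^ m) x = μ ^ m • x := by
      intro m
      induction m with
      | zero => simp
      | succ m ih =>
        rw [pow_succ', pow_succ', mul_smul]
        change T ((T ^ m) x) = _
        rw [ih, map_smul, hx, smul_comm]
    change (algebraMap ℝ (g →L[ℝ] g) a) ((T ^ n) x) = _
    rw [h n, ContinuousLinearMap.algebraMap_apply]

/-- The projection to the `j`-th layer, as a polynomial in `D`. -/
noncomputable def proj (C : Carnot g r) (j : ℕ) : g →L[ℝ] g :=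
  aeval C.D (Lagrange.basis (Finset.Icc 1 C.s) (fun i : ℕ => (i : ℝ)) j)

/-- Dilations. -/
noncomputable def dil (C : Carnot g r) (ρ : ℝ) : g →L[ℝ] g :=
  ∑ j ∈ Finset.Icc 1 C.s, ρ ^ j • proj C j

theorem dil_V (C : Carnot g r) (ρ : ℝ) (i : ℕ) (x : g) (hx : x ∈ C.V i) :
    dil C ρ x = ρ ^ i • x := by
  by_cases hi : i ∈ Finset.Icc 1 C.s
  · have hinj : Set.InjOn (fun i : ℕ => (i : ℝ)) (Finset.Icc 1 C.s : Set ℕ) :=
      fun a _ b _ h => Nat.cast_injective h
    unfold dil
    rw [ContinuousLinearMap.sum_apply, Finset.sum_eq_single i]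
    · rw [ContinuousLinearMap.smul_apply]
      unfold proj
      rw [aeval_eigen C.D x i (C.D_V i x hx)]
      rw [Lagrange.eval_basis_self hinj hi, one_smul]
    · intro j hj hji
      rw [ContinuousLinearMap.smul_apply]
      unfold proj
      rw [aeval_eigen C.D x i (C.D_V i x hx)]
      rw [Lagrange.eval_basis_of_ne hji hi, zero_smul, smul_zero]
    · intro h
      exact absurd hi h
  · have hx0 : x = 0 := by
      rw [Finset.mem_Icc, not_and_or, not_le, not_le] at hi
      rcases hi with h | h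
      · have : i = 0 := by omega
        rw [this, C.V_zero] at hx
        exact (Submodule.mem_bot ℝ).mp hx
      · rw [C.V_big i h] at hx
        exact (Submodule.mem_bot ℝ).mp hx
    rw [hx0, map_zero, smul_zero]

variable [FiniteDimensional ℝ g]

theorem dila (hG : GradeStatement g r) (hS : StrucStatement g r) (hU : UniqStatement) :
    DilaStatement g r := by
  intro C
  obtain ⟨hVV, -, -, hdec, -⟩ := hG C
  have hcomp : ∀ (ρ : ℝ) (a : EE r) (y : g),
      dil C ρ (C.br (C.X a) y) = C.br (ρ • C.X a) (dil C ρ y) := by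
    intro ρ a y
    have ha : C.X a ∈ C.V 1 := by
      rw [← C.X_range]
      exact ⟨a, rfl⟩
    obtain ⟨z, hz, rfl⟩ := hdec y
    rw [map_sum, map_sum, map_sum, map_sum]
    refine Finset.sum_congr rfl fun j _ => ?_
    rw [dil_V C ρ (1 + j) _ (hVV 1 j _ ha _ (hz j)), dil_V C ρ j _ (hz j), map_smul, map_smul,
      ContinuousLinearMap.smul_apply, smul_smul, add_comm 1 j, pow_succ]
  refine ⟨dil C, ?_, ?_, ?_⟩
  · intro b
    obtain ⟨z, hz, rfl⟩ := hdec b
    have h1 : ∀ ρ : ℝ, dil C ρ (∑ j ∈ Finset.Icc 1 C.s, z j) =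
        ∑ j ∈ Finset.Icc 1 C.s, ρ ^ j • z j := by
      intro ρ
      rw [map_sum]
      exact Finset.sum_congr rfl fun j _ => dil_V C ρ j _ (hz j)
    simp only [h1]
    have h2 : Continuous fun ρ : ℝ => ∑ j ∈ Finset.Icc 1 C.s, ρ ^ j • z j := by fun_prop
    have h3 := h2.tendsto 0
    have h4 : (∑ j ∈ Finset.Icc 1 C.s, (0 : ℝ) ^ j • z j) = 0 := by
      refine Finset.sum_eq_zero fun j hj => ?_
      rw [zero_pow (by have := (Finset.mem_Icc.mp hj).1; omega), zero_smul]
    rwa [h4] at h3
  · intro ρ hρ b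
    obtain ⟨z, hz, rfl⟩ := hdec b
    rw [map_sum, map_sum]
    refine Finset.sum_congr rfl fun j _ => ?_
    rw [dil_V C ρ j _ (hz j), map_smul, dil_V C ρ⁻¹ j _ (hz j), smul_smul, ← mul_pow,
      mul_inv_cancel₀ hρ, one_pow, one_smul]
  · intro ρ u
    have hui : ∀ w : Ctl r, IntegrableOn w (Ioc 0 1) := fun w =>
      (Lp.memLp w).integrable (by norm_num)
    have hae : ∀ᵐ t ∂(volume : Measure ℝ), t ∈ Ioc (0 : ℝ) 1 →
        (ρ • u : Ctl r) t = ρ • u t := by
      rw [← ae_restrict_iff' measurableSet_Ioc]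
      exact Lp.coeFn_smul ρ u
    obtain ⟨-, hA1, hs1⟩ := hS C (ρ • u : Ctl r) (hui _)
    obtain ⟨-, hA2, hs2⟩ := hS C u (hui _)
    -- the operator-valued function
    set Y : ℝ → (g →L[ℝ] g) := fun t =>
      C.Ad (ρ • u : Ctl r) t * dil C ρ - dil C ρ * C.Ad u t with hY
    have hYc : ContinuousOn Y (Icc 0 1) :=
      (hA1.mul continuousOn_const).sub (continuousOn_const.mul hA2)
    have hk : IntegrableOn (fun t => C.br (C.X (u t))) (Ioc 0 1) :=
      (C.br.comp C.X).integrable_comp (hui u)
    have hY0 := hU (g →L[ℝ] g) (fun t => C.br (C.X (u t))) Y hk hYc (Or.inl (by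
      intro t ht
      have hint : IntervalIntegrable (fun s => Y s * C.br (C.X (u s))) volume 0 t := by
        rw [intervalIntegrable_iff_integrableOn_Ioc_of_le ht.1]
        exact (hk.continuousOn_mul_of_subset hYc isCompact_Icc measurableSet_Ioc
          Ioc_subset_Icc_self).mono_set (Ioc_subset_Ioc_right ht.2)
      ext z
      rw [ContinuousLinearMap.intervalIntegral_apply hint]
      have e1 := (hs1 t ht).2.2.2.1 (dil C ρ z)
      have e2 := (hs2 t ht).2.2.2.1 z
      have hi2 : IntervalIntegrable (fun s => C.Ad u s (C.br (C.X (u s)) z)) volume 0 t := by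
        rw [intervalIntegrable_iff_integrableOn_Ioc_of_le ht.1]
        have h5 : IntegrableOn (fun s => C.Ad u s * C.br (C.X (u s))) (Ioc 0 1) :=
          hk.continuousOn_mul_of_subset hA2 isCompact_Icc measurableSet_Ioc Ioc_subset_Icc_self
        have h6 := (ContinuousLinearMap.apply ℝ g z).integrable_comp h5
        have h7 : IntegrableOn (fun s => C.Ad u s (C.br (C.X (u s)) z)) (Ioc 0 1) volume := h6
        exact h7.mono_set (Ioc_subset_Ioc_right ht.2)
      have e3 : dil C ρ (∫ s in (0 : ℝ)..t, C.Ad u s (C.br (C.X (u s)) z)) =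
          ∫ s in (0 : ℝ)..t, dil C ρ (C.Ad u s (C.br (C.X (u s)) z)) :=
        ((dil C ρ).intervalIntegral_comp_comm hi2).symm
      have e4 : (∫ s in (0 : ℝ)..t, C.Ad (ρ • u : Ctl r) s
            (C.br (C.X ((ρ • u : Ctl r) s)) (dil C ρ z))) =
          ∫ s in (0 : ℝ)..t, C.Ad (ρ • u : Ctl r) s (dil C ρ (C.br (C.X (u s)) z)) := by
        apply intervalIntegral.integral_congr_ae
        rw [uIoc_of_le ht.1]
        filter_upwards [hae] with s hs hs'
        rw [hs ⟨hs'.1, hs'.2.trans ht.2⟩, hcomp, map_smul]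
      have hi1 : IntervalIntegrable (fun s => C.Ad (ρ • u : Ctl r) s
          (dil C ρ (C.br (C.X (u s)) z))) volume 0 t := by
        rw [intervalIntegrable_iff_integrableOn_Ioc_of_le ht.1]
        have h5 : IntegrableOn (fun s => (C.Ad (ρ • u : Ctl r) s * dil C ρ) *
            C.br (C.X (u s))) (Ioc 0 1) :=
          hk.continuousOn_mul_of_subset (hA1.mul continuousOn_const) isCompact_Icc
            measurableSet_Ioc Ioc_subset_Icc_self
        have h6 := (ContinuousLinearMap.apply ℝ g z).integrable_comp h5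
        have h7 : IntegrableOn (fun s => C.Ad (ρ • u : Ctl r) s
          (dil C ρ (C.br (C.X (u s)) z))) (Ioc 0 1) volume := h6
        exact h7.mono_set (Ioc_subset_Ioc_right ht.2)
      have hi3 : IntervalIntegrable (fun s => dil C ρ (C.Ad u s (C.br (C.X (u s)) z)))
          volume 0 t := by
        rw [intervalIntegrable_iff_integrableOn_Ioc_of_le ht.1] at hi2 ⊢
        exact (dil C ρ).integrable_comp hi2
      change C.Ad (ρ • u : Ctl r) t (dil C ρ z) - dil C ρ (C.Ad u t z) =
        ∫ s in (0 : ℝ)..t, (C.Ad (ρ • u : Ctl r) s (dil C ρ (C.br (C.X (u s)) z)) -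
          dil C ρ (C.Ad u s (C.br (C.X (u s)) z)))
      rw [intervalIntegral.integral_sub hi1 hi3, e1, e2, map_add, e3, e4]
      abel))
    have hcom : ∀ t ∈ Icc (0 : ℝ) 1, ∀ z, C.Ad (ρ • u : Ctl r) t (dil C ρ z) =
        dil C ρ (C.Ad u t z) := by
      intro t ht z
      have h := congrArg (fun T : g →L[ℝ] g => T z) (hY0 t ht)
      exact sub_eq_zero.mp h
    have E1 := (hs1 1 ⟨zero_le_one, le_rfl⟩).2.2.2.2.1
    have E2 := (hs2 1 ⟨zero_le_one, le_rfl⟩).2.2.2.2.1
    change Carnot.org (C.Gam (ρ • u : Ctl r) 1) = dil C ρ (Carnot.org (C.Gam u 1))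
    rw [E1, E2]
    unfold Carnot.W
    have hi : IntervalIntegrable (fun s => C.Ad u s (C.X (u s))) volume 0 1 := by
      rw [intervalIntegrable_iff_integrableOn_Ioc_of_le zero_le_one]
      have hX : IntegrableOn (fun s => C.X (u s)) (Ioc 0 1) := C.X.integrable_comp (hui u)
      rcases isCompact_Icc.exists_bound_of_continuousOn hA2 with ⟨K, hK⟩
      refine Integrable.mono' (hX.norm.const_mul K) ?_ ?_
      · have hm1 : AEStronglyMeasurable (C.Ad u) (volume.restrict (Ioc (0 : ℝ) 1)) :=
          (hA2.mono Ioc_subset_Icc_self).aestronglyMeasurable measurableSet_Ioc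
        exact isBoundedBilinearMap_apply.continuous.comp_aestronglyMeasurable
          (hm1.prodMk hX.aestronglyMeasurable)
      · refine ae_restrict_of_forall_mem measurableSet_Ioc fun s hs => ?_
        exact (ContinuousLinearMap.le_opNorm _ _).trans
          (mul_le_mul_of_nonneg_right (hK s (Ioc_subset_Icc_self hs)) (norm_nonneg _))
    rw [← (dil C ρ).intervalIntegral_comp_comm hi]
    apply intervalIntegral.integral_congr_ae
    rw [uIoc_of_le zero_le_one]
    filter_upwards [hae] with s hs hs'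
    rw [hs hs', ← hcom s (Ioc_subset_Icc_self hs'), map_smul]
    congr 1
    have ha : C.X (u s) ∈ C.V 1 := by
      rw [← C.X_range]
      exact ⟨u s, rfl⟩
    rw [dil_V C ρ 1 _ ha, pow_one]

end Pool.Agent.CutLoci.H38
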