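import Pool.Agent.Lib.MP_0e3b4a_gt.Iface

/-! # LINE: the flow along a control with values in a line -/

set_option autoImplicit false

namespace Pool.Agent.CutLoci.H38

open MeasureTheory Set Filter Topology

section aux

theorem integrableOn_mul {A : Type} [NormedRing A] {Y k : ℝ → A} (hY : ContinuousOn Y (Icc 0 1))
    (hk : IntegrableOn k (Ioc 0 1)) : IntegrableOn (fun s => Y s * k s) (Ioc 0 1) :=
  hk.continuousOn_mul_of_subset hY isCompact_Icc measurableSet_Ioc Ioc_subset_Icc_self

theorem intervalIntegrable_of {E : Type} [NormedAddCommGroup E] {k : ℝ → E}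
    (hk : IntegrableOn k (Ioc 0 1)) {t : ℝ} (ht : t ∈ Icc (0 : ℝ) 1) :
    IntervalIntegrable k volume 0 t := by
  rw [intervalIntegrable_iff_integrableOn_Ioc_of_le ht.1]
  exact hk.mono_set (Ioc_subset_Ioc_right ht.2)

theorem continuousOn_prim {E : Type} [NormedAddCommGroup E] [NormedSpace ℝ E] {k : ℝ → E}
    (hk : IntegrableOn k (Ioc 0 1)) :
    ContinuousOn (fun t => ∫ s in (0 : ℝ)..t, k s) (Icc 0 1) := by
  have h := intervalIntegral.continuousOn_primitive_interval (μ := volume) (a := (0 : ℝ))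
    (b := 1) (f := k) (by
      rw [uIcc_of_le zero_le_one, integrableOn_Icc_iff_integrableOn_Ioc]
      exact hk)
  rwa [uIcc_of_le zero_le_one] at h

end aux

/-- Powers of a primitive are primitives. -/
theorem pow_prim (hP : ProdStatement) (c : ℝ → ℝ) (hc : IntegrableOn c (Ioc 0 1)) (k : ℕ) :
    ∀ t ∈ Icc (0 : ℝ) 1, (∫ s in (0 : ℝ)..t, c s) ^ (k + 1) =
      ((k : ℝ) + 1) * ∫ s in (0 : ℝ)..t, (∫ p in (0 : ℝ)..s, c p) ^ k * c s := by
  have hint : ∀ j : ℕ, IntegrableOn (fun s => (∫ p in (0 : ℝ)..s, c p) ^ j * c s) (Ioc 0 1) :=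
    fun j => integrableOn_mul ((continuousOn_prim hc).pow j) hc
  induction k with
  | zero =>
    intro t _
    simp
  | succ k ih =>
    intro t ht
    have h1 := hP ℝ ℝ ℝ (ContinuousLinearMap.mul ℝ ℝ)
      (fun s => ((k : ℝ) + 1) * ((∫ p in (0 : ℝ)..s, c p) ^ k * c s)) c 0 0
      ((hint k).const_mul _) hc t ht
    simp only [zero_add, ContinuousLinearMap.mul_apply', mul_zero] at h1
    rw [intervalIntegral.integral_const_mul, ← ih t ht, ← pow_succ] at h1
    rw [h1, ← intervalIntegral.integral_const_mul]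
    apply intervalIntegral.integral_congr_ae
    refine Filter.Eventually.of_forall fun s hs => ?_
    rw [uIoc_of_le ht.1] at hs
    have hs' : s ∈ Icc (0 : ℝ) 1 := ⟨hs.1.le, hs.2.trans ht.2⟩
    rw [intervalIntegral.integral_const_mul, ← ih s hs']
    push_cast
    ring

/-- The truncated exponential along a line. -/
noncomputable def linE {A : Type} [NormedRing A] [NormedAlgebra ℝ A] (N : ℕ) (M : A) (x : ℝ) : A :=
  ∑ k ∈ Finset.range N, ((k.factorial : ℝ)⁻¹ * x ^ k) • M ^ k

theorem linE_eq_exp {A : Type} [NormedRing A] [NormedAlgebra ℝ A] {N : ℕ} {M : A}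
    (hM : M ^ N = 0) (x : ℝ) : linE N M x = NormedSpace.exp (x • M) := by
  rw [NormedSpace.exp_eq_tsum ℝ]
  simp only
  rw [tsum_eq_sum (s := Finset.range N)]
  · unfold linE
    refine Finset.sum_congr rfl fun k _ => ?_
    rw [smul_pow, smul_smul]
  · intro k hk
    rw [Finset.mem_range, not_lt] at hk
    rw [smul_pow, pow_eq_zero_of_le hk hM, smul_zero, smul_zero]

theorem linE_sol (hP : ProdStatement) {A : Type} [NormedRing A] [NormedAlgebra ℝ A]
    [CompleteSpace A] {N : ℕ} {M : A} (hM : M ^ N = 0) (c : ℝ → ℝ)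
    (hc : IntegrableOn c (Ioc 0 1)) : ∀ t ∈ Icc (0 : ℝ) 1,
      linE N M (∫ s in (0 : ℝ)..t, c s) =
        1 + ∫ s in (0 : ℝ)..t, linE N M (∫ p in (0 : ℝ)..s, c p) * (c s • M) := by
  intro t ht
  rcases N with _ | n
  · have : Subsingleton A := by
      rw [pow_zero] at hM
      exact subsingleton_of_zero_eq_one hM.symm
    exact Subsingleton.elim _ _
  · have hint : ∀ j : ℕ, IntegrableOn (fun s => (∫ p in (0 : ℝ)..s, c p) ^ j * c s) (Ioc 0 1) :=
      fun j => integrableOn_mul ((continuousOn_prim hc).pow j) hc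
    have h1 : (fun s => linE (n + 1) M (∫ p in (0 : ℝ)..s, c p) * (c s • M)) = fun s =>
        ∑ k ∈ Finset.range (n + 1), ((k.factorial : ℝ)⁻¹ *
          ((∫ p in (0 : ℝ)..s, c p) ^ k * c s)) • M ^ (k + 1) := by
      funext s
      unfold linE
      rw [Finset.sum_mul]
      refine Finset.sum_congr rfl fun k _ => ?_
      rw [smul_mul_smul_comm, ← pow_succ, mul_assoc]
    rw [h1, intervalIntegral.integral_finsetSum]
    · have h2 : ∀ k : ℕ, (∫ s in (0 : ℝ)..t, ((k.factorial : ℝ)⁻¹ *
          ((∫ p in (0 : ℝ)..s, c p) ^ k * c s)) • M ^ (k + 1)) =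
          (((k + 1).factorial : ℝ)⁻¹ * (∫ s in (0 : ℝ)..t, c s) ^ (k + 1)) • M ^ (k + 1) := by
        intro k
        rw [intervalIntegral.integral_smul_const, intervalIntegral.integral_const_mul,
          pow_prim hP c hc k t ht, Nat.factorial_succ]
        congr 1
        push_cast
        have : (k.factorial : ℝ) ≠ 0 := by exact_mod_cast Nat.factorial_ne_zero k
        have h3 : ((k : ℝ) + 1) ≠ 0 := by positivity
        field_simp
      rw [Finset.sum_congr rfl fun k _ => h2 k]
      rw [Finset.sum_range_succ, hM, smul_zero, add_zero]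
      unfold linE
      rw [Finset.sum_range_succ']
      simp only [Nat.factorial_zero, Nat.cast_one, inv_one, pow_zero, mul_one, one_smul]
      rw [add_comm]
    · intro k _
      exact intervalIntegrable_of (((hint k).const_mul _).smul_const _) ht

/-- The flow along a line on `[0, 1]`. -/
theorem flow_line (hP : ProdStatement) (hF : FlowStatement) (hU : UniqStatement) {r : ℕ}
    {A : Type} [NormedRing A] [NormedAlgebra ℝ A] [CompleteSpace A] (R : EE r →L[ℝ] A) (N : ℕ)
    (hR : Nil R N) (v : ℝ → EE r) (hv : IntegrableOn v (Ioc 0 1)) (p : EE r)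
    (hp : ∀ᵐ t ∂(volume.restrict (Ioc (0 : ℝ) 1)), ∃ c : ℝ, v t = c • p) :
    flow R N v 1 = NormedSpace.exp (R (∫ t in (0 : ℝ)..1, v t)) := by
  have hM : (R p) ^ N = 0 := by
    have := hR fun _ => p
    rwa [List.ofFn_const, List.prod_replicate] at this
  -- the coefficient
  obtain ⟨c, hc, hcv⟩ : ∃ c : ℝ → ℝ, IntegrableOn c (Ioc 0 1) ∧
      ∀ᵐ t ∂(volume.restrict (Ioc (0 : ℝ) 1)), v t = c t • p := by
    by_cases hp0 : p = 0
    · refine ⟨fun _ => 0, integrableOn_zero, ?_⟩
      filter_upwards [hp] with t ht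
      obtain ⟨c, hc⟩ := ht
      rw [hc, hp0, smul_zero, smul_zero]
    · refine ⟨fun t => (‖p‖ ^ 2)⁻¹ * inner ℝ p (v t), ?_, ?_⟩
      · exact (((innerSL ℝ p).integrable_comp hv).const_mul _)
      · filter_upwards [hp] with t ht
        obtain ⟨c, hc⟩ := ht
        have h0 : ‖p‖ ^ 2 ≠ 0 := by
          have := norm_ne_zero_iff.mpr hp0
          positivity
        rw [hc, inner_smul_right, real_inner_self_eq_norm_sq]
        congr 1
        field_simp
  have hRv : ∀ᵐ t ∂(volume.restrict (Ioc (0 : ℝ) 1)), R (v t) = c t • R p := by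
    filter_upwards [hcv] with t ht
    rw [ht, map_smul]
  have hRi : IntegrableOn (fun t => R (v t)) (Ioc 0 1) := R.integrable_comp hv
  obtain ⟨hcont, hsol⟩ := hF r A R N hR v hv
  have hEc : ContinuousOn (fun t => linE N (R p) (∫ s in (0 : ℝ)..t, c s)) (Icc 0 1) := by
    unfold linE
    refine continuousOn_finsetSum _ fun k _ => ?_
    exact ((continuousOn_const.mul ((continuousOn_prim hc).pow k)).smul continuousOn_const)
  have hY := hU A (fun t => R (v t))
    (fun t => flow R N v t - linE N (R p) (∫ s in (0 : ℝ)..t, c s)) hRi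
    (hcont.sub hEc) (Or.inl (by
      intro t ht
      have e1 : (∫ s in (0 : ℝ)..t, (flow R N v s - linE N (R p) (∫ p in (0 : ℝ)..s, c p)) *
          R (v s)) = (∫ s in (0 : ℝ)..t, flow R N v s * R (v s)) -
          ∫ s in (0 : ℝ)..t, linE N (R p) (∫ p in (0 : ℝ)..s, c p) * R (v s) := by
        rw [← intervalIntegral.integral_sub]
        · simp only [sub_mul]
        · exact intervalIntegrable_of (integrableOn_mul hcont hRi) ht
        · exact intervalIntegrable_of (integrableOn_mul hEc hRi) ht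
      have e2 : (∫ s in (0 : ℝ)..t, linE N (R p) (∫ p in (0 : ℝ)..s, c p) * R (v s)) =
          ∫ s in (0 : ℝ)..t, linE N (R p) (∫ p in (0 : ℝ)..s, c p) * (c s • R p) := by
        apply intervalIntegral.integral_congr_ae
        rw [uIoc_of_le ht.1]
        have h3 := (ae_restrict_iff' measurableSet_Ioc).1 hRv
        filter_upwards [h3] with s hs hs'
        rw [hs ⟨hs'.1, hs'.2.trans ht.2⟩]
      rw [e1, e2, hsol t ht, linE_sol hP hM c hc t ht]
      abel)) 1 ⟨zero_le_one, le_rfl⟩
  have hY' : flow R N v 1 = linE N (R p) (∫ s in (0 : ℝ)..1, c s) := sub_eq_zero.mp hY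
  rw [hY', linE_eq_exp hM]
  congr 1
  have h4 : (∫ t in (0 : ℝ)..1, v t) = (∫ s in (0 : ℝ)..1, c s) • p := by
    rw [← intervalIntegral.integral_smul_const]
    apply intervalIntegral.integral_congr_ae
    rw [uIoc_of_le zero_le_one]
    exact (ae_restrict_iff' measurableSet_Ioc).1 hcv
  rw [h4, map_smul]

theorem line (hP : ProdStatement) (hF : FlowStatement) (hU : UniqStatement)
    (hRe : RescStatement) : LineStatement := by
  intro r A _ _ _ R N hR u hu a b p ha hab hb hp
  obtain ⟨hv, hfl⟩ := hRe r A R N hR u hu a b ha hab hb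
  have h1 := hfl 1 ⟨zero_le_one, le_rfl⟩
  rw [mul_one, add_sub_cancel] at h1
  rw [← h1]
  congr 1
  have hline : ∀ᵐ t ∂(volume.restrict (Ioc (0 : ℝ) 1)),
      ∃ c : ℝ, (b - a) • u (a + (b - a) * t) = c • p := by
    rcases hab.eq_or_lt with h | h
    · refine Eventually.of_forall fun t => ⟨0, ?_⟩
      rw [h, sub_self, zero_smul, zero_smul]
    · have hba : b - a ≠ 0 := (sub_pos.mpr h).ne'
      have h2 := (ae_restrict_iff' measurableSet_Ioc).1 hp
      rw [ae_restrict_iff' measurableSet_Ioc]
      have hq : Measure.QuasiMeasurePreserving (fun t : ℝ => a + (b - a) * t) volume volume := by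
        have q1 : Measure.QuasiMeasurePreserving (fun t : ℝ => (b - a) * t) volume volume := by
          refine ⟨measurable_const_mul _, ?_⟩
          rw [Real.map_volume_mul_left hba]
          exact Measure.smul_absolutelyContinuous
        have q2 : Measure.QuasiMeasurePreserving (fun t : ℝ => a + t) volume volume :=
          (measurePreserving_add_left volume a).quasiMeasurePreserving
        exact q2.comp q1
      filter_upwards [hq.ae h2] with t ht ht'
      obtain ⟨c, hc⟩ := ht (by
        constructor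
        · have : 0 < (b - a) * t := mul_pos (sub_pos.mpr h) ht'.1
          linarith
        · have : (b - a) * t ≤ (b - a) * 1 := mul_le_mul_of_nonneg_left ht'.2 (sub_pos.mpr h).le
          linarith)
      exact ⟨(b - a) * c, by rw [hc, smul_smul]⟩
  rw [flow_line hP hF hU R N hR _ hv p hline]
  congr 2
  rw [intervalIntegral.integral_smul, intervalIntegral.smul_integral_comp_add_mul]
  simp

end Pool.Agent.CutLoci.H38
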